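import Pool.Agent.LRG.StmtsC

/-!
# Squad LRG, block C, row ALG: the constant products are algebraic over the rationals (helper9)
-/

set_option autoImplicit false

open Polynomial NumberField

namespace Pool.Agent.LRG.H9

open Pool.Agent.LRG

theorem chi_coeff {S : Type} [CommRing S] (n : ℕ) (e : ℤ) (y : Fin (n - 1) → S) (k : ℕ) :
    (chi n e y).coeff k = (if k = n then 1 else 0)
      + (∑ j : Fin (n - 1), if k = j.1 + 1 then y j else 0) + (if k = 0 then (e : S) else 0) := by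
  rw [chi, coeff_add, coeff_add, coeff_X_pow, finsetSum_coeff, coeff_C]
  congr 2
  refine Finset.sum_congr rfl fun j _ => ?_
  rw [coeff_C_mul_X_pow]

theorem chi_coeff_gt {S : Type} [CommRing S] (n : ℕ) (e : ℤ) (y : Fin (n - 1) → S) (k : ℕ)
    (h : n < k) : (chi n e y).coeff k = 0 := by
  rw [chi_coeff, if_neg (by omega), if_neg (by omega), Finset.sum_eq_zero]
  · simp
  · intro j _
    rw [if_neg]
    have := j.2
    omega

theorem chi_coeff_n {S : Type} [CommRing S] (n : ℕ) (hn : 0 < n) (e : ℤ) (y : Fin (n - 1) → S) :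
    (chi n e y).coeff n = 1 := by
  rw [chi_coeff, if_pos rfl, if_neg (by omega), Finset.sum_eq_zero]
  · simp
  · intro j _
    rw [if_neg]
    have := j.2
    omega

theorem chi_monic {S : Type} [CommRing S] (n : ℕ) (hn : 0 < n) (e : ℤ) (y : Fin (n - 1) → S) :
    (chi n e y).Monic :=
  monic_of_natDegree_le_of_coeff_eq_one n
    (natDegree_le_iff_coeff_eq_zero.2 fun k hk => chi_coeff_gt n e y k hk)
    (chi_coeff_n n hn e y)

theorem chi_map {S T : Type} [CommRing S] [CommRing T] (f : S →+* T) (n : ℕ) (e : ℤ)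
    (y : Fin (n - 1) → S) : (chi n e y).map f = chi n e fun j => f (y j) := by
  rw [chi, chi]
  simp only [Polynomial.map_add, Polynomial.map_pow, map_X, Polynomial.map_sum, Polynomial.map_mul,
    map_C]
  rw [_root_.map_intCast f]

theorem alg_zpow {F : Type} [Field F] {a : F} (h : IsAlgebraic ℤ a) (m : ℤ) :
    IsAlgebraic ℤ (a ^ m) := by
  cases m with
  | ofNat m => rw [Int.ofNat_eq_natCast, zpow_natCast]; exact h.pow m
  | negSucc m => rw [zpow_negSucc]; exact (h.pow (m + 1)).inv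

theorem alg_prod {F : Type} [Field F] {ι : Type} [Fintype ι] (y : ι → F)
    (h : ∀ i, ∃ P : ℤ[X], P.Monic ∧ eval₂ (Int.castRingHom F) (y i) P = 0) (μ : ι → ℤ) :
    ∃ m : ℤ[X], m ≠ 0 ∧ eval₂ (Int.castRingHom F) (∏ i, y i ^ μ i) m = 0 := by
  have h1 : ∀ i, IsAlgebraic ℤ (y i) := by
    intro i
    obtain ⟨P, hP, hP0⟩ := h i
    exact ⟨P, hP.ne_zero, hP0⟩
  have h2 : IsAlgebraic ℤ (∏ i, y i ^ μ i) :=
    Finset.prod_induction _ (IsAlgebraic ℤ) (fun _ _ ha hb => ha.mul hb) isAlgebraic_one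
      fun i _ => alg_zpow (h1 i) _
  obtain ⟨m, hm, hm0⟩ := h2
  exact ⟨m, hm, hm0⟩

theorem emb_inj (p : ℕ) [Fact p.Prime] : Function.Injective (LUB.emb p) := by
  unfold LUB.emb
  rw [RingHom.coe_comp]
  exact (algebraMap ℚ_[p] ℂ_[p]).injective.comp Subtype.coe_injective

/-- The last step: `g` maps the constant `β` to an algebraic number, so `β` is algebraic. -/
theorem last_step (hK : CX.KcoStmt) (p : ℕ) [Fact p.Prime] (Ω : Type) [Field Ω] [CharZero Ω]
    [Algebra (PowerSeries ℤ_[p]) Ω] (D : Derivation ℤ Ω Ω)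
    (hinj : Function.Injective (algebraMap (PowerSeries ℤ_[p]) Ω))
    (hder : ∀ g : PowerSeries ℤ_[p], D (algebraMap _ Ω g) =
      algebraMap _ Ω (PowerSeries.derivative ℤ_[p] g))
    (B : Subring Ω) (hint : ∀ b ∈ B, IsIntegral (PowerSeries ℤ_[p]) b)
    (ιB : PowerSeries ℤ_[p] →+* B) (hι : B.subtype.comp ιB = algebraMap (PowerSeries ℤ_[p]) Ω)
    (g : B →+* ℂ_[p])
    (hgι : g.comp ιB = (LUB.emb p).comp (PowerSeries.constantCoeff (R := ℤ_[p])))
    (β : B) (hD : D (β : Ω) = 0)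
    (hg : ∃ m : ℤ[X], m ≠ 0 ∧ eval₂ (Int.castRingHom ℂ_[p]) (g β) m = 0) :
    IsAlgebraic ℚ (β : Ω) := by
  obtain ⟨m, hm0, hm⟩ := hg
  obtain ⟨γB, hγdef⟩ : ∃ γB : B, γB = eval₂ (Int.castRingHom B) β m := ⟨_, rfl⟩
  have hγB : B.subtype γB = aeval (β : Ω) m := by
    have h1 := hom_eval₂ m (Int.castRingHom B) B.subtype β
    rw [hγdef, h1, aeval_def, show B.subtype.comp (Int.castRingHom B) = algebraMap ℤ Ω from
      Subsingleton.elim _ _]
    rfl
  have hgγ : g γB = 0 := by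
    have h1 := hom_eval₂ m (Int.castRingHom B) g β
    rw [show g.comp (Int.castRingHom B) = Int.castRingHom ℂ_[p] from Subsingleton.elim _ _] at h1
    rw [hγdef, h1, hm]
  have hDγ : D (aeval (β : Ω) m) = 0 := by
    rw [Derivation.map_aeval, hD, smul_zero]
  have hfin : aeval (β : Ω) m = 0 := by
    by_contra hγ
    obtain ⟨P, hP0, hPe⟩ := hK p Ω D hinj hder (aeval (β : Ω) m) hγ hDγ
      (by rw [← hγB]; exact (hint _ γB.2).isAlgebraic)
    apply hP0
    apply emb_inj p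
    have h1 : eval₂ (ιB.comp (PowerSeries.C (R := ℤ_[p]))) γB P = 0 := by
      apply Subtype.coe_injective
      have h2 := hom_eval₂ P (ιB.comp (PowerSeries.C (R := ℤ_[p]))) B.subtype γB
      rw [← RingHom.comp_assoc, hι, hγB, hPe] at h2
      exact h2
    have h2 := congrArg g h1
    rw [hom_eval₂, map_zero, hgγ, ← RingHom.comp_assoc, hgι, eval₂_eq_eval_map,
      ← coeff_zero_eq_eval_zero, coeff_map] at h2
    rw [RingHom.comp_apply, RingHom.comp_apply, PowerSeries.constantCoeff_C] at h2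
    rw [h2, map_zero]
  have hZ : IsAlgebraic ℤ (β : Ω) := ⟨m, hm0, hfin⟩
  exact (IsFractionRing.isAlgebraic_iff ℤ ℚ Ω).1 hZ

/-- The extension `B` of the ring of power series by the roots, and the homomorphism `t ↦ 0`. -/
theorem ext_ring (hL : CX.LyoStmt) (p : ℕ) [Fact p.Prime] (Ω : Type) [Field Ω]
    [Algebra (PowerSeries ℤ_[p]) Ω] (hinj : Function.Injective (algebraMap (PowerSeries ℤ_[p]) Ω))
    (ι : Type) (y : ι → Ω) (hy : ∀ i, IsIntegral (PowerSeries ℤ_[p]) (y i)) :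
    ∃ (B : Subring Ω) (ιB : PowerSeries ℤ_[p] →+* B) (g : B →+* ℂ_[p]), (∀ i, y i ∈ B) ∧
      (∀ b ∈ B, IsIntegral (PowerSeries ℤ_[p]) b) ∧
      B.subtype.comp ιB = algebraMap (PowerSeries ℤ_[p]) Ω ∧
      g.comp ιB = (LUB.emb p).comp (PowerSeries.constantCoeff (R := ℤ_[p])) := by
  obtain ⟨am, ham⟩ : ∃ am : PowerSeries ℤ_[p] →+* Ω, am = algebraMap (PowerSeries ℤ_[p]) Ω :=
    ⟨_, rfl⟩
  obtain ⟨B, hBdef⟩ : ∃ B : Subring Ω,
    B = Subring.closure ((am.range : Set Ω) ∪ Set.range y) := ⟨_, rfl⟩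
  have hAB : am.range ≤ B := by
    rw [hBdef]
    exact fun a ha => Subring.subset_closure (Or.inl ha)
  have hyB : ∀ i, y i ∈ B := by
    rw [hBdef]
    exact fun i => Subring.subset_closure (Or.inr ⟨i, rfl⟩)
  have hint : ∀ b ∈ B, IsIntegral (PowerSeries ℤ_[p]) b := by
    have h1 : B ≤ (integralClosure (PowerSeries ℤ_[p]) Ω).toSubring := by
      rw [hBdef, Subring.closure_le]
      rintro b (⟨a, rfl⟩ | ⟨k, rfl⟩)
      · rw [ham]
        exact isIntegral_algebraMap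
      · exact hy k
    exact fun b hb => h1 hb
  have hint2 : ∀ b ∈ B, ∃ P : am.range[X], P.Monic ∧ eval₂ am.range.subtype b P = 0 := by
    intro b hb
    obtain ⟨Q, hQ, hQ0⟩ := hint b hb
    refine ⟨Q.map am.rangeRestrict, hQ.map _, ?_⟩
    rw [eval₂_map]
    rw [show am.range.subtype.comp am.rangeRestrict = am from RingHom.ext fun _ => rfl, ham]
    exact hQ0
  obtain ⟨f, hf⟩ : ∃ f : am.range →+* ℂ_[p], ∀ w,
      f (am.rangeRestrict w) = LUB.emb p (PowerSeries.constantCoeff w) := by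
    let eq : PowerSeries ℤ_[p] ≃+* am.range := RingEquiv.ofBijective am.rangeRestrict
      ⟨fun a b h => hinj (by rw [← ham]; exact congrArg Subtype.val h),
        am.rangeRestrict_surjective⟩
    refine ⟨((LUB.emb p).comp (PowerSeries.constantCoeff (R := ℤ_[p]))).comp
      (eq.symm : am.range →+* _), fun w => ?_⟩
    show LUB.emb p (PowerSeries.constantCoeff (eq.symm (eq w))) = _
    rw [RingEquiv.symm_apply_apply]
  obtain ⟨g, hg⟩ := hL Ω am.range B hAB hint2 ℂ_[p] f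
  refine ⟨B, (Subring.inclusion hAB).comp am.rangeRestrict, g, hyB, hint, ?_, ?_⟩
  · rw [← ham]
    exact RingHom.ext fun _ => rfl
  · exact RingHom.ext fun w => (hg _).trans (hf w)

theorem alg (hL : CX.LyoStmt) (hK : CX.KcoStmt) (hR : CX.RunStmt) (hP : CX.CprStmt) :
    CX.AlgStmt := by
  intro p _ n r z₀ e ξ Ω _ _ _ D x hn he hA x₀ hx₀ μ hD
  obtain ⟨am, ham⟩ : ∃ am : PowerSeries ℤ_[p] →+* Ω, am = algebraMap (PowerSeries ℤ_[p]) Ω :=
    ⟨_, rfl⟩
  obtain ⟨yW, hyWdef⟩ : ∃ yW : Ix n r → PowerSeries ℤ_[p], yW =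
    fun s => (z₀ s : PowerSeries ℤ_[p]) + (p : PowerSeries ℤ_[p]) ^ 2 * ξ s := ⟨_, rfl⟩
  have hyW : ∀ s, am (yW s) = yO z₀ ξ Ω s := by
    intro s
    rw [hyWdef, ham]
    simp only [yO, map_add, map_mul, map_pow, map_intCast, map_natCast]
  have hchi : ∀ i, (chiI e yW i).map am = ∏ j, (X - C (x i j)) := by
    intro i
    rw [← hA.roots i, chiI, chi_map, chiI]
    simp only [hyW]
  have hroot : ∀ i j, eval₂ am (x i j) (chiI e yW i) = 0 := by
    intro i j
    rw [eval₂_eq_eval_map, hchi, eval_prod]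
    exact Finset.prod_eq_zero (Finset.mem_univ j) (by simp)
  obtain ⟨B, ιB, g, hxB', hint, hι, hgι⟩ := ext_ring hL p Ω hA.inj (Fin r × Fin n)
    (fun k => x k.1 k.2) fun k => ⟨chiI e yW k.1, chi_monic n hn _ _, by
      rw [← ham]; exact hroot _ _⟩
  have hxB : ∀ i j, x i j ∈ B := fun i j => hxB' (i, j)
  have hgx : ∀ k : Fin r × Fin n, ∃ P : ℤ[X], P.Monic ∧
      eval₂ (Int.castRingHom ℂ_[p]) (g ⟨x k.1 k.2, hxB k.1 k.2⟩) P = 0 := by
    rintro ⟨i, j⟩
    refine ⟨chiI e (fun s => z₀ s + (p : ℤ) ^ 2 * x₀ s) i, chi_monic n hn _ _, ?_⟩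
    have h1 : eval₂ ιB ⟨x i j, hxB i j⟩ (chiI e yW i) = 0 := by
      apply Subtype.coe_injective
      have h2 := hom_eval₂ (chiI e yW i) ιB B.subtype ⟨x i j, hxB i j⟩
      rw [hι, ← ham] at h2
      exact h2.trans (hroot i j)
    have h2 := congrArg g h1
    rw [hom_eval₂, map_zero, hgι] at h2
    have h3 : (chiI e yW i).map ((LUB.emb p).comp (PowerSeries.constantCoeff (R := ℤ_[p]))) =
        (chiI e (fun s => z₀ s + (p : ℤ) ^ 2 * x₀ s) i).map (Int.castRingHom ℂ_[p]) := by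
      rw [chiI, chi_map, chiI, chi_map, hyWdef]
      congr 1
      funext j
      rw [RingHom.comp_apply, map_add, map_mul, map_pow, map_intCast, map_natCast, hx₀,
        map_add, map_mul, map_pow, map_intCast, map_natCast, map_intCast, eq_intCast,
        Int.cast_add, Int.cast_mul, Int.cast_pow, Int.cast_natCast]
    rw [eval₂_eq_eval_map, h3, ← eval₂_eq_eval_map] at h2
    exact h2
  obtain ⟨hx0, hβB, hg2⟩ := hR Ω n r B x hxB fun i =>
    hP Ω n (e i) (fun j => yO z₀ ξ Ω (Sum.inl (i, j))) (x i) hn (he i) (hA.roots i)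
  have hβ := hβB μ
  have hgβ : g ⟨∏ k : Fin r × Fin n, x k.1 k.2 ^ μ k, hβ⟩ =
      ∏ k : Fin r × Fin n, g ⟨x k.1 k.2, hxB k.1 k.2⟩ ^ μ k := (hg2 ℂ_[p] g).2 μ hβ
  have halg : ∃ m : ℤ[X], m ≠ 0 ∧ eval₂ (Int.castRingHom ℂ_[p])
      (g ⟨∏ k : Fin r × Fin n, x k.1 k.2 ^ μ k, hβ⟩) m = 0 := by
    rw [hgβ]
    exact alg_prod (fun k : Fin r × Fin n => g ⟨x k.1 k.2, hxB k.1 k.2⟩) hgx μ
  exact last_step hK p Ω D hA.inj hA.der B hint ιB hι g hgι
    ⟨∏ k : Fin r × Fin n, x k.1 k.2 ^ μ k, hβ⟩ hD halg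

end Pool.Agent.LRG.H9
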