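import Pool.Agent.LRG.StmtsD

/-!
# Squad LRG, block D, row IMR (helper9)
-/

set_option autoImplicit false

open NumberField NumberField.Units NumberField.Units.dirichletUnitTheorem Module

namespace Pool.Agent.LRG.H9

open Pool.Agent.LRG

theorem imr : D.ImrStmt := by
  refine ⟨?_, ?_, ?_⟩
  · intro K _ _ u hu c hc
    have h1 : ∑ i, (c i : ℝ) • logEmbedding K (Additive.ofMul (u i)) = 0 := by
      have h2 := congrArg (fun v : (𝓞 K)ˣ => logEmbedding K (Additive.ofMul v)) hc
      simp only [ofMul_prod, map_sum, ofMul_zpow, map_zsmul, ofMul_one, map_zero] at h2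
      rw [← h2]
      exact Finset.sum_congr rfl fun i _ => Int.cast_smul_eq_zsmul ℝ (c i) _
    have h3 := Fintype.linearIndependent_iff.1 hu (fun i => (c i : ℝ)) h1
    funext i
    have h4 := h3 i
    simp only [Int.cast_eq_zero] at h4
    simpa using h4
  · intro K _ _ u hu c hc
    have h1 : u ^ c 0 = 1 := by simpa using hc
    funext i
    rw [Subsingleton.elim i 0]
    by_contra hne
    apply hu
    show u ∈ CommGroup.torsion _
    rw [CommGroup.mem_torsion, isOfFinOrder_iff_zpow_eq_one]
    exact ⟨c 0, hne, h1⟩
  · intro K _ _ r u i hu c hc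
    have h1 : u i ^ c 0 = 1 := by simpa using hc
    have h2 : ∏ j, u j ^ (Pi.single i (c 0) : Fin r → ℤ) j = 1 := by
      rw [Finset.prod_eq_single i]
      · simpa using h1
      · intro j _ hj
        simp [Pi.single_eq_of_ne hj]
      · intro h
        exact absurd (Finset.mem_univ i) h
    have h3 := hu _ h2
    funext j
    rw [Subsingleton.elim j 0]
    have h4 := congrFun h3 i
    simpa using h4

end Pool.Agent.LRG.H9
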